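import Pool.Agent.H78.Preim

namespace Pool.Agent.Results.MP_a59f64_al.Counter

open MvPolynomial

/-- Over every field, an injective endomorphism of `K[x₁, x₂, x₃]` sends a non-coordinate to `x₁`. -/
theorem result (K : Type) [Field K] :
    ∃ (p : MvPolynomial (Fin 3) K) (f : MvPolynomial (Fin 3) K →ₐ[K] MvPolynomial (Fin 3) K),
      Function.Injective f ∧ f p = X 0 ∧
        ¬ ∃ q : Fin 3 → MvPolynomial (Fin 3) K, q 0 = p ∧ Algebra.adjoin K (Set.range q) = ⊤ :=
  Pool.Agent.H78.Preim.main K

end Pool.Agent.Results.MP_a59f64_al.Counter
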